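import Mathlib

set_option autoImplicit false

open Finset

namespace Pool.Agent.P.MP_9d1108_nt

/-- Sum of reciprocals of the prime factors of `n` exceeding `P`. -/
noncomputable def tailSum (P n : ℕ) : ℝ :=
  ∑ p ∈ n.primeFactors with P < p, (1 / (p : ℝ))

/-- Contribution of the primes up to `P` to the ratio totient over `n`. -/
noncomputable def headProd (P n : ℕ) : ℝ :=
  ∏ p ∈ range (P + 1) with (p.Prime ∧ p ∣ n), (1 - 1 / (p : ℝ))

lemma weierstrass {ι : Type*} (s : Finset ι) (f : ι → ℝ) (h0 : ∀ i ∈ s, 0 ≤ f i)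
    (h1 : ∀ i ∈ s, f i ≤ 1) : 1 - ∑ i ∈ s, f i ≤ ∏ i ∈ s, (1 - f i) := by
  classical
  induction s using Finset.induction_on with
  | empty => simp
  | insert a s ha ih =>
    rw [sum_insert ha, prod_insert ha]
    have h0' : ∀ i ∈ s, 0 ≤ f i := fun i hi => h0 i (mem_insert_of_mem hi)
    have h1' : ∀ i ∈ s, f i ≤ 1 := fun i hi => h1 i (mem_insert_of_mem hi)
    have ih' := ih h0' h1'
    have ha0 := h0 a (mem_insert_self _ _)
    have ha1 := h1 a (mem_insert_self _ _)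
    have hs : 0 ≤ ∑ i ∈ s, f i := sum_nonneg h0'
    nlinarith [mul_le_mul_of_nonneg_left ih' (sub_nonneg.2 ha1), mul_nonneg ha0 hs]

lemma inv_le_one_of_nat (p : ℕ) : 1 / (p : ℝ) ≤ 1 := by
  rcases Nat.eq_zero_or_pos p with rfl | hp
  · simp
  · rw [div_le_one (by exact_mod_cast hp)]
    exact_mod_cast hp

lemma totient_split (P n : ℕ) (hn : n ≠ 0) :
    (Nat.totient n : ℝ) = n * headProd P n *
      ∏ p ∈ n.primeFactors with P < p, (1 - 1 / (p : ℝ)) := by
  have h := Nat.totient_eq_mul_prod_factors n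
  have h2 : (Nat.totient n : ℝ) = n * ∏ p ∈ n.primeFactors, (1 - 1 / (p : ℝ)) := by
    have := congrArg (fun q : ℚ => (q : ℝ)) h
    simpa using this
  rw [h2, mul_assoc, ← prod_filter_mul_prod_filter_not n.primeFactors (fun p => P < p), mul_comm
    (∏ p ∈ n.primeFactors with P < p, (1 - 1 / (p : ℝ)))]
  congr 2
  unfold headProd
  apply prod_congr _ (fun _ _ => rfl)
  ext p
  simp only [mem_filter, Nat.mem_primeFactors, mem_range]
  constructor
  · rintro ⟨⟨h1, h2, _⟩, h3⟩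
    exact ⟨by omega, h1, h2⟩
  · rintro ⟨h1, h2, h3⟩
    exact ⟨⟨h2, h3, hn⟩, by omega⟩

lemma headProd_nonneg (P n : ℕ) : 0 ≤ headProd P n :=
  prod_nonneg fun p _ => sub_nonneg.2 (inv_le_one_of_nat p)

lemma headProd_le_one (P n : ℕ) : headProd P n ≤ 1 :=
  prod_le_one (fun p _ => sub_nonneg.2 (inv_le_one_of_nat p))
    (fun p _ => by have : 0 ≤ 1 / (p : ℝ) := by positivity
                   linarith)

lemma totient_le_head (P n : ℕ) (hn : n ≠ 0) : (Nat.totient n : ℝ) ≤ n * headProd P n := by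
  rw [totient_split P n hn]
  apply mul_le_of_le_one_right (mul_nonneg (Nat.cast_nonneg _) (headProd_nonneg P n))
  exact prod_le_one (fun p _ => sub_nonneg.2 (inv_le_one_of_nat p))
    (fun p _ => by have : 0 ≤ 1 / (p : ℝ) := by positivity
                   linarith)

lemma head_le_totient (P n : ℕ) (hn : n ≠ 0) :
    n * headProd P n * (1 - tailSum P n) ≤ (Nat.totient n : ℝ) := by
  rw [totient_split P n hn]
  apply mul_le_mul_of_nonneg_left _ (mul_nonneg (Nat.cast_nonneg _) (headProd_nonneg P n))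
  exact weierstrass _ _ (fun p _ => by positivity) (fun p _ => inv_le_one_of_nat p)

lemma prod_telescope (P : ℕ) (hP : 1 ≤ P) :
    ∏ j ∈ Ioc 1 P, (1 - 1 / (j : ℝ)) = 1 / (P : ℝ) := by
  induction P, hP using Nat.le_induction with
  | base => simp
  | succ k hk ih =>
    rw [prod_Ioc_succ_top hk, ih]
    have : (k : ℝ) ≠ 0 := by positivity
    push_cast
    field_simp
    ring

lemma inv_le_headProd (P n : ℕ) (hP : 1 ≤ P) : 1 / (P : ℝ) ≤ headProd P n := by
  rw [← prod_telescope P hP]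
  unfold headProd
  have hsub : (range (P + 1)).filter (fun p => p.Prime ∧ p ∣ n) ⊆ Ioc 1 P := by
    intro p hp
    simp only [mem_filter, mem_range] at hp
    rw [mem_Ioc]
    exact ⟨hp.2.1.one_lt, by omega⟩
  rw [← prod_sdiff hsub]
  apply mul_le_of_le_one_left
  · exact prod_nonneg fun p _ => sub_nonneg.2 (inv_le_one_of_nat p)
  · exact prod_le_one (fun p _ => sub_nonneg.2 (inv_le_one_of_nat p))
      (fun p _ => by have : 0 ≤ 1 / (p : ℝ) := by positivity
                     linarith)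

lemma headProd_mod (P n : ℕ) : headProd P (n % primorial P) = headProd P n := by
  unfold headProd
  apply prod_congr _ (fun _ _ => rfl)
  ext p
  simp only [mem_filter, mem_range]
  have key : p < P + 1 → p.Prime → (p ∣ n % primorial P ↔ p ∣ n) := by
    intro h1 h2
    have hd : p ∣ primorial P := by
      unfold primorial
      exact dvd_prod_of_mem _ (mem_filter.2 ⟨mem_range.2 h1, h2⟩)
    exact Nat.dvd_mod_iff hd
  constructor
  · rintro ⟨h1, h2, h3⟩
    exact ⟨h1, h2, (key h1 h2).1 h3⟩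
  · rintro ⟨h1, h2, h3⟩
    exact ⟨h1, h2, (key h1 h2).2 h3⟩

lemma tailSum_nonneg (P n : ℕ) : 0 ≤ tailSum P n :=
  sum_nonneg fun p _ => by positivity

lemma sum_tailSum_le (P M : ℕ) (hP : 1 ≤ P) :
    ∑ n ∈ Ioc 0 M, tailSum P n ≤ (M : ℝ) / P := by
  have h1 : ∀ n ∈ Ioc 0 M, tailSum P n ≤
      ∑ d ∈ Ioc P (max P M), if d ∣ n then 1 / (d : ℝ) else 0 := by
    intro n hn
    rw [← sum_filter]
    unfold tailSum
    apply sum_le_sum_of_subset_of_nonneg
    · intro p hp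
      simp only [mem_filter, Nat.mem_primeFactors, mem_Ioc] at hp hn ⊢
      have := Nat.le_of_dvd hn.1 hp.1.2.1
      exact ⟨⟨hp.2, by omega⟩, hp.1.2.1⟩
    · intro p _ _
      positivity
  refine (sum_le_sum h1).trans ?_
  rw [sum_comm]
  have h2 : ∀ d ∈ Ioc P (max P M), (∑ n ∈ Ioc 0 M, if d ∣ n then 1 / (d : ℝ) else 0) ≤
      M * ((d : ℝ) ^ 2)⁻¹ := by
    intro d hd
    rw [← sum_filter, sum_const, Nat.Ioc_filter_dvd_card_eq_div, nsmul_eq_mul]
    have hd0 : (0 : ℝ) < d := by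
      have := (mem_Ioc.1 hd).1
      exact_mod_cast (by omega : 0 < d)
    calc ((M / d : ℕ) : ℝ) * (1 / d) ≤ (M / d : ℝ) * (1 / d) := by
          gcongr
          exact Nat.cast_div_le
      _ = M * ((d : ℝ) ^ 2)⁻¹ := by field_simp
  refine (sum_le_sum h2).trans ?_
  rw [← mul_sum, div_eq_mul_inv]
  apply mul_le_mul_of_nonneg_left _ (Nat.cast_nonneg _)
  refine (sum_Ioc_inv_sq_le_sub (by omega) (le_max_left _ _)).trans ?_
  have : (0 : ℝ) ≤ ((max P M : ℕ) : ℝ)⁻¹ := by positivity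
  linarith

lemma card_bad_le (P M : ℕ) (hP : 1 ≤ P) (η : ℝ) (hη : 0 < η) :
    (((Ioc 0 M).filter (fun n => η < tailSum P n)).card : ℝ) ≤ M / (P * η) := by
  have h1 : (((Ioc 0 M).filter (fun n => η < tailSum P n)).card : ℝ) * η ≤ (M : ℝ) / P := by
    refine le_trans ?_ (sum_tailSum_le P M hP)
    rw [← nsmul_eq_mul, ← sum_const]
    refine le_trans (sum_le_sum fun n hn => (mem_filter.1 hn).2.le) ?_
    exact sum_le_sum_of_subset_of_nonneg (filter_subset _ _) fun n _ _ => tailSum_nonneg P n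
  rw [← div_div, le_div_iff₀ hη]
  exact h1

/-- Elements of one residue class in a real interval. -/
lemma card_residue_le (S : Finset ℕ) (Q a : ℕ) (hQ : 0 < Q) (lo L : ℝ) (hlo : 0 ≤ lo) (hL : 0 ≤ L)
    (hS : ∀ n ∈ S, n % Q = a ∧ lo ≤ n ∧ (n : ℝ) ≤ lo + L) : (S.card : ℝ) ≤ L / Q + 2 := by
  have hQ' : (0 : ℝ) < Q := by exact_mod_cast hQ
  have hinj : Set.InjOn (fun n => n / Q) (S : Set ℕ) := by
    intro m hm n hn hmn
    have h1 := (hS m hm).1
    have h2 := (hS n hn).1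
    simp only at hmn
    rw [← Nat.div_add_mod m Q, ← Nat.div_add_mod n Q, h1, h2, hmn]
  have hmaps : ∀ n ∈ S, n / Q ∈ Icc ⌊lo / Q⌋₊ ⌊(lo + L) / Q⌋₊ := by
    intro n hn
    obtain ⟨_, h2, h3⟩ := hS n hn
    rw [mem_Icc, ← Nat.floor_div_eq_div (K := ℝ)]
    constructor
    · apply Nat.floor_mono
      gcongr
    · apply Nat.floor_mono
      gcongr
  have hc := card_le_card_of_injOn (fun n => n / Q) hmaps hinj
  rw [Nat.card_Icc] at hc
  have h4 : (⌊(lo + L) / Q⌋₊ : ℝ) ≤ (lo + L) / Q := Nat.floor_le (by positivity)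
  have h5 : lo / Q < ⌊lo / Q⌋₊ + 1 := Nat.lt_floor_add_one _
  have h6 : ⌊lo / Q⌋₊ ≤ ⌊(lo + L) / Q⌋₊ + 1 := by
    have : ⌊lo / Q⌋₊ ≤ ⌊(lo + L) / Q⌋₊ := by
      apply Nat.floor_mono
      gcongr
      linarith
    omega
  have h7 : (S.card : ℝ) ≤ (⌊(lo + L) / Q⌋₊ : ℝ) + 1 - ⌊lo / Q⌋₊ := by
    have : (S.card : ℝ) ≤ ((⌊(lo + L) / Q⌋₊ + 1 - ⌊lo / Q⌋₊ : ℕ) : ℝ) := by exact_mod_cast hc
    rw [Nat.cast_sub h6] at this
    push_cast at this
    exact this
  have h8 : (lo + L) / Q = lo / Q + L / Q := add_div _ _ _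
  linarith

end Pool.Agent.P.MP_9d1108_nt
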