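import Pool.Agent.P.MP_9d1108_nt.Basic

set_option autoImplicit false

open Finset

namespace Pool.Agent.P.MP_9d1108_nt

/-- The set counted in the problem lies in `Ioc 0 M` once `x + h ≤ M`. -/
lemma mem_Ioc_of_mem (x M n : ℕ) (h : ℝ) (hM : (x : ℝ) + h ≤ M)
    (hn : (x : ℝ) < (n : ℝ) + (Nat.totient n : ℝ) ∧ (n : ℝ) + (Nat.totient n : ℝ) < (x : ℝ) + h) :
    n ∈ Ioc 0 M := by
  rw [mem_Ioc]
  constructor
  · rcases Nat.eq_zero_or_pos n with rfl | hp
    · have : (0 : ℝ) ≤ x := Nat.cast_nonneg _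
      simp at hn
      linarith [hn.1]
    · exact hp
  · have : (0 : ℝ) ≤ Nat.totient n := Nat.cast_nonneg _
    have h2 : (n : ℝ) ≤ M := by linarith [hn.2]
    exact_mod_cast h2

lemma ncard_eq (x M : ℕ) (h : ℝ) (hM : (x : ℝ) + h ≤ M) :
    Set.ncard {n : ℕ | (x : ℝ) < (n : ℝ) + (Nat.totient n : ℝ) ∧
      (n : ℝ) + (Nat.totient n : ℝ) < (x : ℝ) + h} =
    ((Ioc 0 M).filter (fun n : ℕ => (x : ℝ) < (n : ℝ) + (Nat.totient n : ℝ) ∧
      (n : ℝ) + (Nat.totient n : ℝ) < (x : ℝ) + h)).card := by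
  rw [← Set.ncard_coe_finset]
  congr 1
  ext n
  simp only [Set.mem_ofPred_eq, coe_filter]
  exact ⟨fun hn => ⟨mem_Ioc_of_mem x M n h hM hn, hn⟩, fun hn => hn.2⟩

/-- Main estimate for windows of length at most `x`. -/
lemma count_le_small (D x : ℕ) (h : ℝ) (hD : 1 ≤ D) (hx : D * 4 ^ (D ^ 2) ≤ x)
    (hh : (x : ℝ) / D ≤ h) (hhx : h ≤ x) :
    (Set.ncard {n : ℕ | (x : ℝ) < (n : ℝ) + (Nat.totient n : ℝ) ∧
      (n : ℝ) + (Nat.totient n : ℝ) < (x : ℝ) + h} : ℝ) ≤ 7 * h := by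
  classical
  have hD' : (0 : ℝ) < D := by exact_mod_cast hD
  have hx0 : (0 : ℝ) ≤ x := Nat.cast_nonneg _
  have hxD : 0 ≤ (x : ℝ) / D := by positivity
  have hh0 : 0 ≤ h := hxD.trans hh
  rw [ncard_eq x (2 * x) h (by push_cast; linarith)]
  set S := (Ioc 0 (2 * x)).filter (fun n : ℕ => (x : ℝ) < (n : ℝ) + (Nat.totient n : ℝ) ∧
      (n : ℝ) + (Nat.totient n : ℝ) < (x : ℝ) + h) with hS
  set P := D ^ 2 with hP
  have hP1 : 1 ≤ P := Nat.one_le_pow _ _ hD
  set Q := primorial P with hQ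
  have hQ0 : 0 < Q := primorial_pos _
  have hQ' : (0 : ℝ) < Q := by exact_mod_cast hQ0
  have hQx : (Q : ℝ) ≤ x / D := by
    rw [le_div_iff₀ hD']
    have h1 : Q * D ≤ x := by
      calc Q * D ≤ 4 ^ P * D := Nat.mul_le_mul_right _ (primorial_le_four_pow P)
        _ = D * 4 ^ P := mul_comm _ _
        _ ≤ x := hx
    exact_mod_cast h1
  set η : ℝ := 1 / D with hη
  have hη0 : 0 < η := by positivity
  have hsplit := card_filter_add_card_filter_not (s := S) (fun n => η < tailSum P n)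
  have hbad : ((S.filter (fun n => η < tailSum P n)).card : ℝ) ≤ 2 * (x / D) := by
    have h1 := card_bad_le P (2 * x) hP1 η hη0
    have h2 : (S.filter (fun n => η < tailSum P n)).card ≤
        ((Ioc 0 (2 * x)).filter (fun n => η < tailSum P n)).card :=
      card_le_card (filter_subset_filter _ (filter_subset _ _))
    have h3 : (((2 * x : ℕ) : ℝ)) / (P * η) = 2 * (x / D) := by
      rw [hP, hη]
      push_cast
      field_simp
    rw [h3] at h1
    exact le_trans (by exact_mod_cast h2) h1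
  set G := S.filter (fun n => ¬ η < tailSum P n) with hG
  have hfib : G.card = ∑ a ∈ range Q, (G.filter (fun n => n % Q = a)).card :=
    card_eq_sum_card_fiberwise (fun n _ => mem_range.2 (Nat.mod_lt _ hQ0))
  have hone : ∀ a ∈ range Q, ((G.filter (fun n => n % Q = a)).card : ℝ) ≤
      (h + 2 * (x / D)) / Q + 2 := by
    intro a _
    have hH0 := headProd_nonneg P a
    have hH1 := headProd_le_one P a
    apply card_residue_le _ Q a hQ0 (x / (1 + headProd P a)) (h + 2 * (x / D)) (by positivity)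
      (by positivity)
    intro n hn
    simp only [hG, hS, mem_filter, mem_Ioc, not_lt] at hn
    obtain ⟨⟨⟨⟨hn0, hn2⟩, hn3, hn4⟩, hn5⟩, hn6⟩ := hn
    have hHn : headProd P n = headProd P a := by rw [← hn6, hQ, headProd_mod]
    have e1 := totient_le_head P n hn0.ne'
    have e2 := head_le_totient P n hn0.ne'
    rw [hHn] at e1 e2
    have hn2' : (n : ℝ) ≤ 2 * x := by exact_mod_cast hn2
    have hn0' : (0 : ℝ) ≤ n := Nat.cast_nonneg _
    have hT := tailSum_nonneg P n
    refine ⟨hn6, ?_, ?_⟩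
    · rw [div_le_iff₀ (by positivity)]
      nlinarith
    · have e3 : (n : ℝ) * headProd P a * tailSum P n ≤ 2 * (x / D) := by
        calc (n : ℝ) * headProd P a * tailSum P n ≤ (2 * x) * 1 * η := by gcongr
          _ = 2 * (x / D) := by rw [hη]; ring
      have e4 : (n : ℝ) * (1 + headProd P a) ≤ x + (h + 2 * (x / D)) := by nlinarith
      have e5 : (n : ℝ) ≤ (x + (h + 2 * (x / D))) / (1 + headProd P a) := by
        rw [le_div_iff₀ (by positivity)]
        exact e4
      rw [add_div] at e5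
      have e6 : (h + 2 * (x / D)) / (1 + headProd P a) ≤ h + 2 * (x / D) :=
        div_le_self (by positivity) (by linarith)
      linarith
  have hgood : (G.card : ℝ) ≤ h + 2 * (x / D) + 2 * Q := by
    rw [hfib]
    push_cast
    refine (sum_le_sum hone).trans ?_
    rw [sum_const, card_range, nsmul_eq_mul]
    apply le_of_eq
    field_simp
  have hcast : (S.card : ℝ) = (S.filter (fun n => η < tailSum P n)).card + G.card := by
    exact_mod_cast hsplit.symm
  rw [hcast]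
  linarith

/-- Main estimate: every window of length `h ≥ x / D` starting at `x ≥ D * 4 ^ (D ^ 2)` holds at
most `7 h` values of `n + φ n`, counted with multiplicity. -/
lemma count_le (D x : ℕ) (h : ℝ) (hD : 1 ≤ D) (hx : D * 4 ^ (D ^ 2) ≤ x)
    (hh : (x : ℝ) / D ≤ h) :
    (Set.ncard {n : ℕ | (x : ℝ) < (n : ℝ) + (Nat.totient n : ℝ) ∧
      (n : ℝ) + (Nat.totient n : ℝ) < (x : ℝ) + h} : ℝ) ≤ 7 * h := by
  rcases le_total h x with hhx | hhx
  · exact count_le_small D x h hD hx hh hhx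
  · have hx1 : 1 ≤ x := le_trans (Nat.mul_pos hD (by positivity)) hx
    have hx1' : (1 : ℝ) ≤ x := by exact_mod_cast hx1
    rw [ncard_eq x ⌈(x : ℝ) + h⌉₊ h (Nat.le_ceil _)]
    have h1 := card_filter_le (Ioc 0 ⌈(x : ℝ) + h⌉₊) (fun n : ℕ =>
      (x : ℝ) < (n : ℝ) + (Nat.totient n : ℝ) ∧ (n : ℝ) + (Nat.totient n : ℝ) < (x : ℝ) + h)
    rw [Nat.card_Ioc, Nat.sub_zero] at h1
    have h2 : (⌈(x : ℝ) + h⌉₊ : ℝ) < x + h + 1 := Nat.ceil_lt_add_one (by linarith)
    refine le_trans (Nat.cast_le.2 h1) ?_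
    linarith

/-- At most `2 N / K` integers `n` in `[1, N]` have `2 K φ n < n`. -/
lemma card_small_totient_le (K N : ℕ) (hK : 1 ≤ K) :
    (((Ioc 0 N).filter (fun n : ℕ => 2 * (K : ℝ) * Nat.totient n < n)).card : ℝ) ≤ 2 * N / K := by
  have hK' : (0 : ℝ) < K := by exact_mod_cast hK
  have h1 := card_bad_le K N hK (1 / 2) (by norm_num)
  have h2 : ((Ioc 0 N).filter (fun n : ℕ => 2 * (K : ℝ) * Nat.totient n < n)) ⊆
      (Ioc 0 N).filter (fun n => (1 / 2 : ℝ) < tailSum K n) := by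
    intro n hn
    rw [mem_filter] at hn ⊢
    refine ⟨hn.1, ?_⟩
    by_contra hc
    rw [not_lt] at hc
    have hn0 : 0 < n := (mem_Ioc.1 hn.1).1
    have e1 := head_le_totient K n hn0.ne'
    have e2 := inv_le_headProd K n hK
    have e3 : (n : ℝ) * (1 / K) * (1 / 2) ≤ n * headProd K n * (1 - tailSum K n) := by
      have := headProd_nonneg K n
      gcongr
      linarith
    have e4 : (n : ℝ) * (1 / K) * (1 / 2) ≤ Nat.totient n := e3.trans e1
    have e5 : (n : ℝ) ≤ 2 * K * Nat.totient n := by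
      have : (n : ℝ) = 2 * K * ((n : ℝ) * (1 / K) * (1 / 2)) := by field_simp
      calc (n : ℝ) = 2 * K * ((n : ℝ) * (1 / K) * (1 / 2)) := this
        _ ≤ 2 * K * Nat.totient n := by gcongr
    linarith [hn.2]
  have h3 : (N : ℝ) / (K * (1 / 2)) = 2 * N / K := by field_simp
  rw [h3] at h1
  exact le_trans (by exact_mod_cast card_le_card h2) h1

end Pool.Agent.P.MP_9d1108_nt
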