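import Pool.Agent.P.MP_9d1108_nt.Count

set_option autoImplicit false

open Finset Filter Topology

namespace Pool.Agent.P.MP_9d1108_nt

/-- Explicit form: for `log x ≥ 4` and every `h ≥ x / √(log x)` the window `(x, x + h)` holds at
most `28 h` values of `n + φ n`. -/
lemma count_le_sqrt_log (x : ℕ) (h : ℝ) (hx : 4 ≤ Real.log x)
    (hh : (x : ℝ) / √(Real.log x) ≤ h) :
    (Set.ncard {n : ℕ | (x : ℝ) < (n : ℝ) + (Nat.totient n : ℝ) ∧
      (n : ℝ) + (Nat.totient n : ℝ) < (x : ℝ) + h} : ℝ) ≤ 28 * h := by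
  set y : ℝ := √(Real.log x) with hy
  have hy2 : 2 ≤ y := by
    rw [hy]
    apply Real.le_sqrt_of_sq_le
    linarith
  have hysq : y ^ 2 = Real.log x := Real.sq_sqrt (by linarith)
  have hx0 : (0 : ℝ) < x := by
    rcases Nat.eq_zero_or_pos x with rfl | hp
    · simp at hx
      linarith
    · exact_mod_cast hp
  set D := ⌊y / 2⌋₊ with hD
  have hD1 : 1 ≤ D := Nat.le_floor (by push_cast; linarith)
  have hD1' : (1 : ℝ) ≤ D := by exact_mod_cast hD1
  have hDle : (D : ℝ) ≤ y / 2 := Nat.floor_le (by linarith)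
  have hDge : y / 2 < D + 1 := Nat.lt_floor_add_one _
  have hxD : D * 4 ^ (D ^ 2) ≤ x := by
    have h1 : D ≤ 4 ^ (D ^ 2) := by
      calc D ≤ D ^ 2 := Nat.le_self_pow (by norm_num) D
        _ ≤ 4 ^ (D ^ 2) := (Nat.lt_pow_self (by norm_num)).le
    have h2 : D * 4 ^ (D ^ 2) ≤ 2 ^ (4 * D ^ 2) := by
      calc D * 4 ^ (D ^ 2) ≤ 4 ^ (D ^ 2) * 4 ^ (D ^ 2) := Nat.mul_le_mul_right _ h1
        _ = 2 ^ (4 * D ^ 2) := by
          rw [← mul_pow, pow_mul]
          norm_num
    have h3 : ((2 ^ (4 * D ^ 2) : ℕ) : ℝ) ≤ x := by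
      push_cast
      have e1 : (2 : ℝ) ≤ Real.exp 1 := by
        have := Real.add_one_le_exp (1 : ℝ)
        linarith
      calc (2 : ℝ) ^ (4 * D ^ 2) ≤ (Real.exp 1) ^ (4 * D ^ 2) := by gcongr
        _ = Real.exp ((4 * D ^ 2 : ℕ) : ℝ) := by rw [← Real.exp_nat_mul, mul_one]
        _ ≤ Real.exp (Real.log x) := by
          apply Real.exp_le_exp.2
          push_cast
          nlinarith
        _ = x := Real.exp_log hx0
    exact h2.trans (by exact_mod_cast h3)
  have hh0 : 0 ≤ h := le_trans (by positivity) hh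
  have hmax : (x : ℝ) / D ≤ 4 * h := by
    have h1 : (x : ℝ) / D ≤ 4 * (x / y) := by
      rw [div_le_iff₀ (by linarith)]
      have : 4 * ((x : ℝ) / y) * D = x * (4 * D / y) := by ring
      rw [this]
      apply le_mul_of_one_le_right hx0.le
      rw [le_div_iff₀ (by linarith)]
      linarith
    linarith
  have hmain := count_le D x (4 * h) hD1 hxD hmax
  refine le_trans ?_ (hmain.trans (by linarith))
  apply Nat.cast_le.2
  apply Set.ncard_le_ncard
  · intro n hn
    exact ⟨hn.1, by linarith [hn.2]⟩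
  · apply (Finset.finite_toSet (Ioc 0 ⌈(x : ℝ) + 4 * h⌉₊)).subset
    intro n hn
    exact mem_Ioc_of_mem x _ n (4 * h) (Nat.le_ceil _) hn

/-- If `g → ∞`, the integers with `n ≤ 2 (g n) φ n` have natural density one. -/
lemma density_one (g : ℕ → ℝ) (hg : Tendsto g atTop atTop) :
    Tendsto (fun N : ℕ => ((({n : ℕ | (n : ℝ) ≤ 2 * g n * Nat.totient n} ∩ Set.Iio N).ncard : ℝ)
      / (N : ℝ))) atTop (𝓝 1) := by
  classical
  set A : Set ℕ := {n : ℕ | (n : ℝ) ≤ 2 * g n * Nat.totient n} with hA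
  have hcard : ∀ N : ℕ, (A ∩ Set.Iio N).ncard = ((range N).filter (fun n => n ∈ A)).card := by
    intro N
    rw [← Set.ncard_coe_finset]
    congr 1
    ext n
    simp [and_comm]
  rw [Metric.tendsto_atTop]
  intro ε hε
  obtain ⟨K, hK⟩ := exists_nat_gt (4 / ε)
  have hK0 : (0 : ℝ) < K := lt_trans (by positivity) hK
  have hK1 : 1 ≤ K := by exact_mod_cast hK0
  obtain ⟨n0, hn0⟩ := eventually_atTop.1 (hg.eventually_ge_atTop (K : ℝ))
  obtain ⟨N0, hN0⟩ := exists_nat_gt (2 * ((n0 : ℝ) + 1) / ε)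
  refine ⟨N0, fun N hN => ?_⟩
  have hN' : 2 * ((n0 : ℝ) + 1) / ε < N := hN0.trans_le (by exact_mod_cast hN)
  have hNpos : (0 : ℝ) < N := lt_trans (by positivity) hN'
  have hsplit := card_filter_add_card_filter_not (s := range N) (fun n => n ∈ A)
  rw [card_range] at hsplit
  have hsub : (range N).filter (fun n => ¬ n ∈ A) ⊆ range (n0 + 1) ∪
      (Ioc 0 N).filter (fun n : ℕ => 2 * (K : ℝ) * Nat.totient n < n) := by
    intro n hn
    rw [mem_filter, mem_range] at hn
    rw [mem_union, mem_range, mem_filter, mem_Ioc]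
    by_cases hc : n < n0 + 1
    · exact Or.inl hc
    · refine Or.inr ⟨⟨by omega, hn.1.le⟩, ?_⟩
      have h1 : ¬ (n : ℝ) ≤ 2 * g n * Nat.totient n := hn.2
      rw [not_le] at h1
      refine lt_of_le_of_lt ?_ h1
      have := hn0 n (by omega)
      gcongr
  have hbad : (((range N).filter (fun n => ¬ n ∈ A)).card : ℝ) ≤ (n0 + 1) + 2 * N / K := by
    have h1 := (card_le_card hsub).trans (card_union_le _ _)
    rw [card_range] at h1
    have h2 := card_small_totient_le K N hK1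
    have h3 : (((range N).filter (fun n => ¬ n ∈ A)).card : ℝ) ≤ (n0 + 1) +
        (((Ioc 0 N).filter (fun n : ℕ => 2 * (K : ℝ) * Nat.totient n < n)).card : ℝ) := by
      exact_mod_cast h1
    linarith
  have hsplit' : (((range N).filter (fun n => n ∈ A)).card : ℝ) +
      (((range N).filter (fun n => ¬ n ∈ A)).card : ℝ) = N := by exact_mod_cast hsplit
  rw [hcard N, Real.dist_eq]
  set b : ℝ := (((range N).filter (fun n => ¬ n ∈ A)).card : ℝ) with hb
  have hb0 : 0 ≤ b := Nat.cast_nonneg _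
  have e1 : (((range N).filter (fun n => n ∈ A)).card : ℝ) / N - 1 = -(b / N) := by
    field_simp
    linarith
  rw [e1, abs_neg, abs_of_nonneg (by positivity), div_lt_iff₀ hNpos]
  have e2 : (n0 : ℝ) + 1 < ε / 2 * N := by
    rw [div_lt_iff₀ hε] at hN'
    linarith
  have e3 : 2 * (N : ℝ) / K ≤ ε / 2 * N := by
    rw [div_lt_iff₀ hε] at hK
    rw [div_le_iff₀ hK0]
    nlinarith
  linarith

/-- If `F n / n → 0` and `F` is eventually positive, then `F n / φ n → 0` for almost all `n`. -/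
lemma almost_all (F : ℕ → ℝ) (hpos : ∀ᶠ n in atTop, 0 < F n)
    (hF : Tendsto (fun n : ℕ => F n / (n : ℝ)) atTop (𝓝 0)) :
    ∃ A : Set ℕ,
      Tendsto (fun N : ℕ => ((A ∩ Set.Iio N).ncard : ℝ) / (N : ℝ)) atTop (𝓝 1) ∧
      Tendsto (fun n : ℕ => F n / (Nat.totient n : ℝ)) (atTop ⊓ 𝓟 A) (𝓝 0) := by
  have hs : Tendsto (fun n : ℕ => √(F n / (n : ℝ))) atTop (𝓝 0) := by
    have := hF.sqrt
    simpa using this
  have hspos : ∀ᶠ n : ℕ in atTop, 0 < √(F n / (n : ℝ)) := by
    filter_upwards [hpos, eventually_gt_atTop 0] with n h1 h2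
    have : (0 : ℝ) < n := by exact_mod_cast h2
    positivity
  have hg : Tendsto (fun n : ℕ => (√(F n / (n : ℝ)))⁻¹) atTop atTop :=
    tendsto_inv_nhdsGT_zero.comp
      (tendsto_nhdsWithin_iff.2 ⟨hs, hspos⟩)
  refine ⟨_, density_one _ hg, ?_⟩
  have hs2 : Tendsto (fun n : ℕ => 2 * √(F n / (n : ℝ))) atTop (𝓝 0) := by
    simpa using hs.const_mul 2
  refine squeeze_zero' ?_ ?_ (hs2.mono_left inf_le_left)
  · filter_upwards [hpos.filter_mono inf_le_left] with n hn
    positivity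
  · rw [eventually_inf_principal]
    filter_upwards [hpos, hspos, eventually_gt_atTop 0] with n h1 h2 h3 h4
    have hn : (0 : ℝ) < n := by exact_mod_cast h3
    have hφ : (0 : ℝ) < Nat.totient n := by exact_mod_cast Nat.totient_pos.2 h3
    have h5 : (n : ℝ) ≤ 2 * (√(F n / (n : ℝ)))⁻¹ * Nat.totient n := h4
    set s := √(F n / (n : ℝ)) with hsdef
    have h6 : s ^ 2 = F n / n := Real.sq_sqrt (by positivity)
    have h7 : F n = s ^ 2 * n := by rw [h6]; field_simp
    rw [div_le_iff₀ hφ, h7]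
    calc s ^ 2 * n ≤ s ^ 2 * (2 * s⁻¹ * Nat.totient n) := by gcongr
      _ = 2 * s * Nat.totient n := by field_simp

lemma tendsto_sqrt_log : Tendsto (fun x : ℕ => √(Real.log x)) atTop atTop :=
  Real.tendsto_sqrt_atTop.comp (Real.tendsto_log_atTop.comp tendsto_natCast_atTop_atTop)

lemma tendsto_div_sqrt_log : Tendsto (fun x : ℕ => (x : ℝ) / √(Real.log x)) atTop atTop := by
  have h1 : Tendsto (fun x : ℕ => √(x : ℝ)) atTop atTop :=
    Real.tendsto_sqrt_atTop.comp tendsto_natCast_atTop_atTop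
  refine tendsto_atTop_mono' _ ?_ h1
  filter_upwards [eventually_gt_atTop 1] with x hx
  have hx' : (1 : ℝ) < x := by exact_mod_cast hx
  have hl : 0 < Real.log x := Real.log_pos hx'
  rw [le_div_iff₀ (by positivity)]
  have h2 : √(Real.log x) ≤ √(x : ℝ) := by
    apply Real.sqrt_le_sqrt
    have := Real.log_le_sub_one_of_pos (by linarith : (0 : ℝ) < x)
    linarith
  calc √(x : ℝ) * √(Real.log x) ≤ √(x : ℝ) * √(x : ℝ) := by gcongr
    _ = x := Real.mul_self_sqrt (by linarith)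

/-- Every `F` with `x / √(log x) ≤ F x` for large `x` and `F x / x → 0` witnesses the failure
of property (P) for the totient function. -/
theorem witness (F : ℕ → ℝ) (hlow : ∀ᶠ x : ℕ in atTop, (x : ℝ) / √(Real.log x) ≤ F x)
    (hup : Tendsto (fun x : ℕ => F x / (x : ℝ)) atTop (𝓝 0)) :
    Tendsto F atTop atTop ∧
      (∃ A : Set ℕ,
        Tendsto (fun N : ℕ => ((A ∩ Set.Iio N).ncard : ℝ) / (N : ℝ)) atTop (𝓝 1) ∧
        Tendsto (fun n : ℕ => F n / (Nat.totient n : ℝ)) (atTop ⊓ 𝓟 A) (𝓝 0)) ∧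
      ∀ᶠ x : ℕ in atTop,
        (Set.ncard {n : ℕ | (x : ℝ) < (n : ℝ) + (Nat.totient n : ℝ) ∧
          (n : ℝ) + (Nat.totient n : ℝ) < (x : ℝ) + F x} : ℝ) ≤ 28 * F x := by
  have hF : Tendsto F atTop atTop := tendsto_atTop_mono' _ hlow tendsto_div_sqrt_log
  refine ⟨hF, almost_all F (hF.eventually_gt_atTop 0) hup, ?_⟩
  have hl : Tendsto (fun x : ℕ => Real.log x) atTop atTop :=
    Real.tendsto_log_atTop.comp tendsto_natCast_atTop_atTop
  filter_upwards [hlow, hl.eventually_ge_atTop 4] with x h1 h2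
  exact count_le_sqrt_log x (F x) h2 h1

lemma tendsto_div_sqrt_log_div :
    Tendsto (fun x : ℕ => (x : ℝ) / √(Real.log x) / (x : ℝ)) atTop (𝓝 0) := by
  refine tendsto_sqrt_log.inv_tendsto_atTop.congr' ?_
  filter_upwards [eventually_gt_atTop 0] with x hx
  have : (x : ℝ) ≠ 0 := by positivity
  simp only [Pi.inv_apply]
  field_simp

end Pool.Agent.P.MP_9d1108_nt
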